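import Pool.Agent.Q227.UB.Main

/-!
# Minimum-size load-bounded decompositions of trees into unit bar visibility trees

The least load `ub(T)` and the minimum size `m(T)` of a decomposition of a tree `T` into unit bar
visibility trees in which every vertex lies in at most `ub(T)` pieces can be computed in polynomial
time.

A decomposition into `ℓ` pieces gives a labelling of the edges by `spine` or an orientation (the
legs of a piece are directed to its spine) with local conditions at every vertex and with at most
`2ℓ` vertices incident with an odd number of spine edges. Conversely a labelling with these local
conditions and `q` odd vertices gives a decomposition into exactly `q / 2` pieces of the same load.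
The least number of odd vertices is found by a dynamic program over the vertices of the tree.
-/

set_option autoImplicit false

namespace Pool.Agent.Results.MP_3433f0_lc.MinimumSizeInP

open Pool.Agent.NPC Q227.UB

/-- **Main theorem.** Some polynomial-time computable function maps (the code of) every tree `T`,
given by a list of distinct vertices and a list of edges, to (the code of) the pair of `ub(T)`, the
least `k ≥ 1` such that `T` has a decomposition into unit bar visibility trees with every vertex in
at most `k` pieces, and `m(T)`, the least number of pieces of such a decomposition for
`k = ub(T)`. -/
theorem result : ∃ F : List Bool → List Bool, PolyTime F ∧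
    ∀ I : List ℕ × List (ℕ × ℕ), I.1.Nodup → (graphOf I).IsTree →
      ∃ ub m : ℕ, F (bits I) = bits (ub, m) ∧
        IsLeast {k | 1 ≤ k ∧ ∃ ℓ, Decomposes (graphOf I) k ℓ} ub ∧
        IsLeast {ℓ | Decomposes (graphOf I) ub ℓ} m :=
  main

end Pool.Agent.Results.MP_3433f0_lc.MinimumSizeInP
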